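import Pool.Agent.H222F.Small

set_option autoImplicit false
set_option linter.unusedSectionVars false

/-! A local condition on 3-edge-cuts. -/

namespace Pool.Agent.H222F

open Finset
open Pool.Agent.H170.Reg

variable {V E : Type} [Fintype V] [DecidableEq V] [Fintype E] [DecidableEq E]

theorem mem_bdS (src dst : E → V) (X : Finset V) (e : E) :
    e ∈ bdS src dst X ↔ ¬ (src e ∈ X ↔ dst e ∈ X) := by simp [bdS]

open Classical in
/-- The members of a family of disjoint sets whose boundary contains an edge joining two members. -/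
theorem two_ends (src dst : E → V) (t : ℕ) (X : Fin t → Finset V)
    (hdis : ∀ i j, i ≠ j → Disjoint (X i) (X j)) (J : Finset E)
    (hJ : J = univ.filter (fun e => ∃ i j, i ≠ j ∧ src e ∈ X i ∧ dst e ∈ X j)) (e : E)
    (he : e ∈ J) : ∃ i j, i ≠ j ∧ e ∈ bdS src dst (X i) ∧ e ∈ bdS src dst (X j) ∧
      ∀ k, e ∈ bdS src dst (X k) → k = i ∨ k = j := by
  rw [hJ, Finset.mem_filter] at he
  obtain ⟨-, i, j, hij, hs, hd⟩ := he
  refine ⟨i, j, hij, ?_, ?_, ?_⟩
  · rw [mem_bdS]
    intro h
    exact (Finset.disjoint_left.mp (hdis _ _ hij)) (h.mp hs) hd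
  · rw [mem_bdS]
    intro h
    exact (Finset.disjoint_left.mp (hdis _ _ hij)) hs (h.mpr hd)
  · intro k hk
    rw [mem_bdS] at hk
    by_contra hcon
    push Not at hcon
    apply hk
    refine iff_of_false (fun h => ?_) (fun h => ?_)
    · exact Finset.disjoint_left.mp (hdis k i hcon.1) h hs
    · exact Finset.disjoint_left.mp (hdis k j hcon.2) h hd

open Classical in
/-- Double counting: the edges joining different members of a family of disjoint sets. -/
theorem two_mul_le (src dst : E → V) (t : ℕ) (X : Fin t → Finset V)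
    (hdis : ∀ i j, i ≠ j → Disjoint (X i) (X j)) (J : Finset E)
    (hJ : J = univ.filter (fun e => ∃ i j, i ≠ j ∧ src e ∈ X i ∧ dst e ∈ X j)) :
    2 * J.card ≤ ∑ i, (bdS src dst (X i) ∩ J).card := by
  have h1 : ∀ i, (bdS src dst (X i) ∩ J).card
      = ∑ e ∈ J, if e ∈ bdS src dst (X i) then 1 else 0 := by
    intro i
    rw [← Finset.card_filter]
    congr 1
    ext e
    simp only [Finset.mem_inter, Finset.mem_filter]
    exact and_comm
  rw [Finset.sum_congr rfl (fun i _ => h1 i), Finset.sum_comm]
  have h2 : ∑ e ∈ J, 2 = 2 * J.card := by rw [Finset.sum_const, smul_eq_mul, mul_comm]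
  rw [← h2]
  refine Finset.sum_le_sum fun e he => ?_
  obtain ⟨i, j, hij, hs, hd, -⟩ := two_ends src dst t X hdis J hJ e he
  rw [← Finset.card_filter]
  have h3 : ({i, j} : Finset (Fin t)) ⊆ univ.filter (fun i => e ∈ bdS src dst (X i)) := by
    intro k hk
    rw [Finset.mem_insert, Finset.mem_singleton] at hk
    rw [Finset.mem_filter]
    refine ⟨Finset.mem_univ _, ?_⟩
    rcases hk with rfl | rfl
    · exact hs
    · exact hd
  have h4 := Finset.card_le_card h3
  rwa [Finset.card_pair hij] at h4

open Classical in
/-- Edges joining a set with three and a set with four boundary edges are charged to the latter. -/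
theorem charge (src dst : E → V) (t : ℕ) (X : Fin t → Finset V)
    (hdis : ∀ i j, i ≠ j → Disjoint (X i) (X j)) (J : Finset E)
    (hJ : J = univ.filter (fun e => ∃ i j, i ≠ j ∧ src e ∈ X i ∧ dst e ∈ X j)) :
    (∑ i, if (bdS src dst (X i)).card = 3 then
      ((bdS src dst (X i) ∩ J).filter (fun e => ∃ k, (bdS src dst (X k)).card = 4 ∧
        e ∈ bdS src dst (X k))).card else 0)
    ≤ ∑ i, if (bdS src dst (X i)).card = 4 then (bdS src dst (X i) ∩ J).card else 0 := by
  have h1 : ∀ i, (if (bdS src dst (X i)).card = 3 then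
      ((bdS src dst (X i) ∩ J).filter (fun e => ∃ k, (bdS src dst (X k)).card = 4 ∧
        e ∈ bdS src dst (X k))).card else 0)
      = ∑ e ∈ J, if ((bdS src dst (X i)).card = 3 ∧ e ∈ bdS src dst (X i) ∧
        (∃ k, (bdS src dst (X k)).card = 4 ∧ e ∈ bdS src dst (X k))) then 1 else 0 := by
    intro i
    by_cases h : (bdS src dst (X i)).card = 3
    · rw [if_pos h, ← Finset.card_filter]
      congr 1
      ext e
      simp only [Finset.mem_inter, Finset.mem_filter, h, true_and]
      tauto
    · rw [if_neg h]
      symm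
      apply Finset.sum_eq_zero
      intro e _
      rw [if_neg (fun h' => h h'.1)]
  have h2 : ∀ i, (if (bdS src dst (X i)).card = 4 then (bdS src dst (X i) ∩ J).card else 0)
      = ∑ e ∈ J, if ((bdS src dst (X i)).card = 4 ∧ e ∈ bdS src dst (X i)) then 1 else 0 := by
    intro i
    by_cases h : (bdS src dst (X i)).card = 4
    · rw [if_pos h, ← Finset.card_filter]
      congr 1
      ext e
      simp only [Finset.mem_inter, Finset.mem_filter, h, true_and]
      tauto
    · rw [if_neg h]
      symm
      apply Finset.sum_eq_zero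
      intro e _
      rw [if_neg (fun h' => h h'.1)]
  rw [Finset.sum_congr rfl (fun i _ => h1 i), Finset.sum_congr rfl (fun i _ => h2 i),
    Finset.sum_comm, Finset.sum_comm (s := univ) (t := J)]
  refine Finset.sum_le_sum fun e he => ?_
  obtain ⟨i, j, hij, hei, hej, honly⟩ := two_ends src dst t X hdis J hJ e he
  rw [← Finset.card_filter, ← Finset.card_filter]
  by_cases hP : ∃ k, (bdS src dst (X k)).card = 4 ∧ e ∈ bdS src dst (X k)
  · obtain ⟨k, h4, hek⟩ := hP
    have hB : ({k} : Finset (Fin t)) ⊆ univ.filter (fun k => (bdS src dst (X k)).card = 4 ∧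
        e ∈ bdS src dst (X k)) := by
      intro k' hk
      rw [Finset.mem_singleton] at hk
      rw [Finset.mem_filter, hk]
      exact ⟨Finset.mem_univ _, h4, hek⟩
    obtain ⟨l, hl⟩ : ∃ l, ∀ k', e ∈ bdS src dst (X k') → k' = k ∨ k' = l := by
      rcases honly k hek with h | h
      · exact ⟨j, fun k' hk' => by rw [h]; exact honly k' hk'⟩
      · exact ⟨i, fun k' hk' => by rw [h]; exact (honly k' hk').symm⟩
    have hA : (univ.filter (fun k => (bdS src dst (X k)).card = 3 ∧ e ∈ bdS src dst (X k) ∧
        (∃ k, (bdS src dst (X k)).card = 4 ∧ e ∈ bdS src dst (X k)))) ⊆ {l} := by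
      intro k' hk
      rw [Finset.mem_filter] at hk
      rw [Finset.mem_singleton]
      rcases hl k' hk.2.2.1 with h | h
      · exfalso
        have := hk.2.1
        rw [h] at this
        omega
      · exact h
    have h9 : ({l} : Finset (Fin t)).card ≤ ({k} : Finset (Fin t)).card := by simp
    exact (Finset.card_le_card hA).trans (h9.trans (Finset.card_le_card hB))
  · have h5 : (univ.filter (fun k => (bdS src dst (X k)).card = 3 ∧ e ∈ bdS src dst (X k) ∧
        (∃ k, (bdS src dst (X k)).card = 4 ∧ e ∈ bdS src dst (X k)))) = ∅ := by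
      rw [Finset.filter_eq_empty_iff]
      intro k _ hk
      exact hP hk.2.2
    rw [h5]; simp

/-- A vertex set `X` is satisfied if its boundary contains an edge which lies in no other edge cut
with at most four edges avoiding `F`, or two edges which lie in no other edge cut with three edges
avoiding `F`. -/
def Sat (src dst : E → V) (F : Finset E) (X : Finset V) : Prop :=
  (∃ e ∈ bdS src dst X, ∀ Y : Finset V, (bdS src dst Y).card ≤ 4 → Disjoint (bdS src dst Y) F →
    e ∈ bdS src dst Y → bdS src dst Y = bdS src dst X) ∨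
  (∃ e ∈ bdS src dst X, ∃ e' ∈ bdS src dst X, e ≠ e' ∧ ∀ Y : Finset V,
    (bdS src dst Y).card = 3 → Disjoint (bdS src dst Y) F →
    (e ∈ bdS src dst Y ∨ e' ∈ bdS src dst Y) → bdS src dst Y = bdS src dst X)

open Classical in
theorem good_local (src dst : E → V) (m : ℕ) (C : Fin m → Finset E)
    (hC : ∀ i, ∃ z : E → ℤ, (∀ e, z e = 0 ∨ z e = 1 ∨ z e = -1) ∧ (∀ e, z e ≠ 0 ↔ e ∈ C i) ∧
      ∀ v, ∑ e, z e * ((if src e = v then 1 else 0) - (if dst e = v then 1 else 0)) = 0)
    (hnew : ∀ i, (C i \ (univ.filter (fun j => j < i)).biUnion C).card ≤ 4)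
    (h3 : ∀ X : Finset V, X.Nonempty → X ≠ univ → 3 ≤ (bdS src dst X).card)
    (hX : ∀ X : Fin 11 → Finset V, (∀ i j, i ≠ j → Disjoint (X i) (X j)) →
      (∀ i, (bdS src dst (X i)).card = 3 ∧ Disjoint (bdS src dst (X i)) (univ.biUnion C)) →
      ∃ i, Sat src dst (univ.biUnion C) (X i)) :
    Good 5 src dst univ := by
  refine good_small src dst 5 (by norm_num) m C hC hnew h3 ?_
  intro t X ht hdis hcard
  set J : Finset E := univ.filter (fun e => ∃ i j, i ≠ j ∧ src e ∈ X i ∧ dst e ∈ X j) with hJ
  set F : Finset E := univ.biUnion C with hFdef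
  have hne : ∀ i, (X i).Nonempty := by
    intro i
    rw [Finset.nonempty_iff_ne_empty]
    intro h
    have := (hcard i).1
    rw [h] at this
    simp [bdS] at this
  have hF : ∀ i, Disjoint (bdS src dst (X i)) F := by
    intro i
    rw [hFdef, Finset.disjoint_biUnion_right]
    intro j _
    exact (hcard i).2.2 j
  have h34 : ∀ i, (bdS src dst (X i)).card = 3 ∨ (bdS src dst (X i)).card = 4 := by
    intro i
    have := (hcard i).1
    have := (hcard i).2.1
    omega
  -- different members have different boundaries
  have hdiff : ∀ i k, i ≠ k → bdS src dst (X k) ≠ bdS src dst (X i) := by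
    intro i k hik h
    obtain ⟨l, hli, hlk⟩ : ∃ l : Fin t, l ≠ i ∧ l ≠ k := by
      let p : Fin t := ⟨0, by omega⟩
      let q : Fin t := ⟨1, by omega⟩
      let r : Fin t := ⟨2, by omega⟩
      have hpq : p ≠ q := by intro h; simp [p, q] at h
      have hpr : p ≠ r := by intro h; simp [p, r] at h
      have hqr : q ≠ r := by intro h; simp [q, r] at h
      by_cases hp : p = i ∨ p = k
      · by_cases hq : q = i ∨ q = k
        · refine ⟨r, ?_, ?_⟩
          · rintro rfl
            rcases hp with hp | hp
            · exact hpr hp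
            · rcases hq with hq | hq
              · exact hqr hq
              · exact hpq (hp.trans hq.symm)
          · rintro rfl
            rcases hp with hp | hp
            · rcases hq with hq | hq
              · exact hpq (hp.trans hq.symm)
              · exact hqr hq
            · exact hpr hp
        · push Not at hq
          exact ⟨q, hq.1, hq.2⟩
      · push Not at hp
        exact ⟨p, hp.1, hp.2⟩
    obtain ⟨x, hx⟩ := hne l
    have hxi : x ∉ X i := Finset.disjoint_left.mp (hdis l i hli) hx
    have hxk : x ∉ X k := Finset.disjoint_left.mp (hdis l k hlk) hx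
    have h5 := h3 (X i ∪ X k) ((hne i).mono Finset.subset_union_left) (by
      intro h6
      have h7 : x ∈ X i ∪ X k := by rw [h6]; exact Finset.mem_univ _
      rw [Finset.mem_union] at h7
      tauto)
    have h6 : bdS src dst (X i ∪ X k) = ∅ := by
      rw [Finset.eq_empty_iff_forall_notMem]
      intro e he
      rw [mem_bdS, Finset.mem_union, Finset.mem_union] at he
      have h7 : e ∈ bdS src dst (X k) ↔ e ∈ bdS src dst (X i) := by rw [h]
      rw [mem_bdS, mem_bdS] at h7
      have h8 : src e ∈ X i → src e ∉ X k := fun h => Finset.disjoint_left.mp (hdis i k hik) h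
      have h9 : dst e ∈ X i → dst e ∉ X k := fun h => Finset.disjoint_left.mp (hdis i k hik) h
      tauto
    rw [h6] at h5
    simp at h5
  -- the unsatisfied members
  let U : Finset (Fin t) := univ.filter (fun i => (bdS src dst (X i)).card = 3 ∧
    ¬ Sat src dst F (X i))
  have hU : U.card ≤ 10 := by
    by_contra hcon
    push Not at hcon
    obtain ⟨U', hU', hU'c⟩ := Finset.exists_subset_card_eq (Nat.succ_le_of_lt hcon)
    let φ : Fin 11 ≃ U' := (Finset.equivFinOfCardEq hU'c).symm
    obtain ⟨i, hi⟩ := hX (fun i => X (φ i).1) (by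
      intro i j hij
      exact hdis _ _ (fun h => hij (φ.injective (Subtype.ext h)))) (by
      intro i
      have := (Finset.mem_filter.mp (hU' (φ i).2)).2.1
      exact ⟨this, hF _⟩)
    exact (Finset.mem_filter.mp (hU' (φ i).2)).2.2 hi
  have hother : ∀ i, ∀ e ∈ bdS src dst (X i), e ∈ J → ∃ k, k ≠ i ∧ e ∈ bdS src dst (X k) := by
    intro i e he heJ
    obtain ⟨p, q, hpq, hp, hq, honly⟩ := two_ends src dst t X hdis J hJ e heJ
    rcases honly i he with h | h
    · exact ⟨q, fun h' => hpq (h ▸ h'.symm), hq⟩
    · exact ⟨p, fun h' => hpq (h'.trans h), hp⟩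
  have hloc : ∀ i, 2 * (bdS src dst (X i) ∩ J).card
      + (if (bdS src dst (X i)).card = 4 then (bdS src dst (X i) ∩ J).card else 0) + 20
      ≤ 8 * (bdS src dst (X i)).card + (if (bdS src dst (X i)).card = 3 then
      ((bdS src dst (X i) ∩ J).filter (fun e => ∃ k, (bdS src dst (X k)).card = 4 ∧
        e ∈ bdS src dst (X k))).card else 0) + (if i ∈ U then 2 else 0) := by
    intro i
    have hle := Finset.card_le_card (Finset.inter_subset_left : bdS src dst (X i) ∩ J ⊆ _)
    rcases h34 i with h | h
    · rw [if_neg (by omega), if_pos h]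
      have key : (∃ e ∈ bdS src dst (X i), e ∉ J) → (bdS src dst (X i) ∩ J).card < 3 := by
        rintro ⟨e, heb, heJ⟩
        rw [← h]
        apply Finset.card_lt_card
        rw [Finset.ssubset_iff_of_subset Finset.inter_subset_left]
        exact ⟨e, heb, fun h => heJ (Finset.mem_inter.mp h).2⟩
      by_cases hS : Sat src dst F (X i)
      · rcases hS with ⟨e, he, hY⟩ | ⟨e, he, e', he', hee, hY⟩
        · have := key ⟨e, he, fun heJ => by
            obtain ⟨k, hki, hk⟩ := hother i e he heJ
            exact hdiff i k (fun h => hki h.symm)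
              (hY (X k) (by have := (hcard k).2.1; omega) (hF k) hk)⟩
          omega
        · by_cases h1 : e ∈ J
          · by_cases h2 : e' ∈ J
            · have hQ : ∀ f, (f = e ∨ f = e') → f ∈ bdS src dst (X i) → f ∈ J →
                  ∃ k, (bdS src dst (X k)).card = 4 ∧ f ∈ bdS src dst (X k) := by
                intro f hf hfb hfJ
                obtain ⟨k, hki, hk⟩ := hother i f hfb hfJ
                refine ⟨k, ?_, hk⟩
                rcases h34 k with h5 | h5
                · exfalso
                  refine hdiff i k (fun h => hki h.symm) (hY (X k) h5 (hF k) ?_)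
                  rcases hf with rfl | rfl
                  · exact Or.inl hk
                  · exact Or.inr hk
                · exact h5
              have hsub : ({e, e'} : Finset E) ⊆ (bdS src dst (X i) ∩ J).filter
                  (fun e => ∃ k, (bdS src dst (X k)).card = 4 ∧ e ∈ bdS src dst (X k)) := by
                intro f hf
                rw [Finset.mem_insert, Finset.mem_singleton] at hf
                rw [Finset.mem_filter, Finset.mem_inter]
                rcases hf with rfl | rfl
                · exact ⟨⟨he, h1⟩, hQ _ (Or.inl rfl) he h1⟩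
                · exact ⟨⟨he', h2⟩, hQ _ (Or.inr rfl) he' h2⟩
              have h8 := Finset.card_le_card hsub
              rw [Finset.card_pair hee] at h8
              omega
            · have := key ⟨e', he', h2⟩
              omega
          · have := key ⟨e, he, h1⟩
            omega
      · have hiU : i ∈ U := Finset.mem_filter.mpr ⟨Finset.mem_univ _, h, hS⟩
        rw [if_pos hiU]
        omega
    · rw [if_pos h, if_neg (by omega)]
      omega
  have hch := charge src dst t X hdis J hJ
  have hUsum : ∑ i : Fin t, (if i ∈ U then 2 else 0) ≤ 20 := by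
    rw [← Finset.sum_filter, Finset.sum_const, smul_eq_mul]
    have : (univ.filter (fun i => i ∈ U)) = U := by ext i; simp
    rw [this]
    omega
  have hsum : 2 * ∑ i, (bdS src dst (X i) ∩ J).card + (∑ i, if (bdS src dst (X i)).card = 4 then
      (bdS src dst (X i) ∩ J).card else 0) + 20 * t
      ≤ 8 * ∑ i, (bdS src dst (X i)).card + (∑ i, if (bdS src dst (X i)).card = 3 then
      ((bdS src dst (X i) ∩ J).filter (fun e => ∃ k, (bdS src dst (X k)).card = 4 ∧
        e ∈ bdS src dst (X k))).card else 0) + ∑ i : Fin t, (if i ∈ U then 2 else 0) := by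
    have h5 : ∑ i : Fin t, 20 = 20 * t := by
      rw [Finset.sum_const, Finset.card_univ, Fintype.card_fin, smul_eq_mul, mul_comm]
    rw [← h5, Finset.mul_sum, Finset.mul_sum, ← Finset.sum_add_distrib, ← Finset.sum_add_distrib,
      ← Finset.sum_add_distrib, ← Finset.sum_add_distrib]
    exact Finset.sum_le_sum fun i _ => hloc i
  have h2 := two_mul_le src dst t X hdis J hJ
  have h6 : ∀ J' : Finset E, J' = J → 3 * 5 * J'.card + 5 * 5 * t
      + 5 * ∑ i, (bdS src dst (X i)).card
        ≤ 3 * 5 * ∑ i, (bdS src dst (X i)).card + 10 * J'.card + 5 * 5 := by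
    rintro J' rfl
    omega
  exact h6 _ (by rw [hJ])

end Pool.Agent.H222F
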